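import Pool.Agent.UCAlmost.Core

/-!
# Poonen's strict inequality for almost all union-closed families

A union-closed family is determined by its core (the members with at most one lower neighbour
in the family), and if the core has large total size then the average size of the members is
more than `n/2`. So all but very few union-closed families satisfy the strict inequality.
-/

namespace Pool.Agent.Results.MP_d55cb9_co.AlmostAll

open Finset Filter Pool.Agent.UCAlmost

/-- The family `F` separates the elements of the ground set. -/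
def Separating {α : Type*} [DecidableEq α] (F : Finset (Finset α)) : Prop :=
  ∀ x y : α, x ≠ y → ∃ A ∈ F, ¬ (x ∈ A ↔ y ∈ A)

/-- The average size of the members of `F` is more than `(n + K) / 2`, and some element lies
in more than `(1/2 + K / (2n)) |F|` members of `F`. -/
def Good {n : ℕ} (K : ℕ) (F : Finset (Finset (Fin n))) : Prop :=
  (n + K) * F.card < 2 * ∑ A ∈ F, A.card ∧ ∃ x, (n + K) * F.card < 2 * n * freq F x

open scoped Classical in
/-- The union-closed families `F` of subsets of `{0, ..., n-1}` which are not good. -/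
noncomputable def bad (n K : ℕ) : Finset (Finset (Finset (Fin n))) :=
  univ.filter (fun F => UnionClosed F ∧ ¬ Good K F)

open scoped Classical in
/-- The separating union-closed families of subsets of `{0, ..., n-1}` with union
`{0, ..., n-1}` which are not the power set. -/
noncomputable def families (n : ℕ) : Finset (Finset (Finset (Fin n))) :=
  univ.filter (fun F => UnionClosed F ∧ Separating F ∧ F.sup id = univ ∧ F ≠ univ)

open scoped Classical in
/-- The members of `families n` which are good. -/
noncomputable def goodFamilies (n K : ℕ) : Finset (Finset (Finset (Fin n))) :=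
  (families n).filter (fun F => Good K F)

theorem good_of_size {n : ℕ} (hn : 0 < n) (K : ℕ) (F : Finset (Finset (Fin n)))
    (h : (n + K) * F.card < 2 * ∑ A ∈ F, A.card) : Good K F := by
  refine ⟨h, ?_⟩
  by_contra hcon
  push Not at hcon
  have h3 : ∑ x, 2 * n * freq F x ≤ ∑ _x : Fin n, (n + K) * F.card :=
    Finset.sum_le_sum fun x _ => hcon x
  rw [← Finset.mul_sum, sum_freq, Finset.sum_const, smul_eq_mul, Finset.card_univ,
    Fintype.card_fin, mul_comm 2 n, mul_assoc] at h3
  have h4 : 2 * ∑ A ∈ F, A.card ≤ (n + K) * F.card := Nat.le_of_mul_le_mul_left h3 hn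
  omega

theorem bad_le (n K : ℕ) (u : ℝ) (hu0 : 0 < u) (hu1 : u ≤ 1) :
    ((bad n K).card : ℝ) * u ^ ((K + 1) * 2 ^ n) ≤ Real.exp ((u + 1) ^ n / u) := by
  classical
  have h1 : (bad n K).card ≤ ((univ : Finset (Finset (Finset (Fin n)))).filter
      (fun G => ∑ C ∈ G, (C.card - 1) ≤ (K + 1) * 2 ^ n)).card := by
    refine Finset.card_le_card_of_injOn core ?_ ?_
    · intro F hF
      obtain ⟨hU, hf⟩ := (Finset.mem_filter.1 hF).2
      refine Finset.mem_coe.2 (Finset.mem_filter.2 ⟨Finset.mem_univ _, ?_⟩)
      have h2 := main_inequality F hU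
      rw [Fintype.card_fin] at h2
      have hcard : F.card ≤ 2 ^ n := by
        have := Finset.card_le_univ F
        rwa [Fintype.card_finset, Fintype.card_fin] at this
      rcases Nat.eq_zero_or_pos n with h0 | h0
      · subst h0
        have : ∑ C ∈ core F, (C.card - 1) = 0 := by
          refine Finset.sum_eq_zero fun C _ => ?_
          have : C.card ≤ 0 := by simpa using Finset.card_le_univ C
          omega
        omega
      · have h4 : 2 * ∑ A ∈ F, A.card ≤ (n + K) * F.card := by
          by_contra h3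
          exact hf (good_of_size h0 K F (by omega))
        have h5 : K * F.card ≤ K * 2 ^ n := Nat.mul_le_mul_left _ hcard
        have h6 : (n + K) * F.card = n * F.card + K * F.card := by ring
        have h7 : (K + 1) * 2 ^ n = K * 2 ^ n + 2 ^ n := by ring
        have h8 : 2 * n * F.card = 2 * (n * F.card) := by ring
        omega
    · intro F hF G hG h
      exact core_injective F G (Finset.mem_filter.1 hF).2.1 (Finset.mem_filter.1 hG).2.1 h
  have h2 := count_light (α := Fin n) ((K + 1) * 2 ^ n) u hu0 hu1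
  rw [Fintype.card_fin] at h2
  refine le_trans (mul_le_mul_of_nonneg_right ?_ (by positivity)) h2
  exact_mod_cast h1

/-- For large `n` the number of exceptional families, even multiplied by `n!`, is at most
`exp (2^n ((4K+5) log n + 2) / n)`. -/
theorem bad_bound (n K : ℕ) (hn : 4 ≤ n) (hlog : 4 * Real.log n ≤ n) :
    ((n.factorial : ℕ) : ℝ) * ((bad n K).card : ℝ) ≤
      Real.exp (2 ^ n * ((4 * K + 5) * Real.log n + 2) / n) := by
  have hn0 : (0 : ℝ) < n := by
    have : 0 < n := by omega
    exact_mod_cast this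
  have hlog0 : 0 ≤ Real.log n := Real.log_natCast_nonneg n
  set t : ℝ := 2 * Real.log n / n with ht
  have ht0 : 0 ≤ t := by positivity
  have ht1 : t ≤ 1 / 2 := by
    rw [ht, div_le_iff₀ hn0]
    linarith
  have hu0 : 0 < 1 - t := by linarith
  have h1 := bad_le n K (1 - t) hu0 (by linarith)
  -- lower bound for the power
  have h2 : Real.exp (-(2 * t)) ≤ 1 - t := by
    have h3 : 1 + 2 * t ≤ Real.exp (2 * t) := by
      rw [add_comm]
      exact Real.add_one_le_exp _
    rw [Real.exp_neg]
    have h4 : (0 : ℝ) < 1 + 2 * t := by linarith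
    calc (Real.exp (2 * t))⁻¹ ≤ (1 + 2 * t)⁻¹ := inv_anti₀ h4 h3
      _ ≤ 1 - t := by
        rw [inv_le_iff_one_le_mul₀ h4]
        nlinarith
  have h3 : Real.exp (-(2 * t * ((K + 1) * 2 ^ n))) ≤ (1 - t) ^ ((K + 1) * 2 ^ n) := by
    calc Real.exp (-(2 * t * ((K + 1) * 2 ^ n)))
        = Real.exp (-(2 * t)) ^ ((K + 1) * 2 ^ n) := by
          rw [← Real.exp_nat_mul]
          congr 1
          push_cast
          ring
      _ ≤ _ := pow_le_pow_left₀ (Real.exp_nonneg _) h2 _
  -- upper bound for the exponent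
  have h4 : (1 - t + 1) ^ n / (1 - t) ≤ 2 * 2 ^ n / n := by
    have h5 : 1 - t / 2 ≤ Real.exp (-(t / 2)) := by
      have := Real.add_one_le_exp (-(t / 2))
      linarith
    have h6 : (1 - t / 2) ^ n ≤ 1 / n := by
      calc (1 - t / 2) ^ n ≤ Real.exp (-(t / 2)) ^ n :=
            pow_le_pow_left₀ (by linarith) h5 _
        _ = Real.exp (-Real.log n) := by
            rw [← Real.exp_nat_mul]
            congr 1
            rw [ht]
            field_simp
        _ = 1 / n := by
            rw [Real.exp_neg, Real.exp_log hn0, one_div]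
    have h7 : (1 - t + 1) ^ n = 2 ^ n * (1 - t / 2) ^ n := by
      rw [← mul_pow]
      congr 1
      ring
    rw [h7, div_le_iff₀ hu0]
    have h8 : (2 : ℝ) ^ n * (1 - t / 2) ^ n ≤ 2 ^ n * (1 / n) :=
      mul_le_mul_of_nonneg_left h6 (by positivity)
    have h9 : (0 : ℝ) ≤ 2 ^ n / n := by positivity
    have h10 : 2 * (2 : ℝ) ^ n / n * (1 - t) = 2 ^ n / n * (2 * (1 - t)) := by ring
    rw [h10]
    have h11 : (2 : ℝ) ^ n * (1 / n) = 2 ^ n / n := by ring
    rw [h11] at h8
    nlinarith
  have h5 : ((bad n K).card : ℝ) ≤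
      Real.exp (2 * t * ((K + 1) * 2 ^ n) + 2 * 2 ^ n / n) := by
    have h6 : ((bad n K).card : ℝ) * Real.exp (-(2 * t * ((K + 1) * 2 ^ n))) ≤
        Real.exp (2 * 2 ^ n / n) :=
      calc ((bad n K).card : ℝ) * Real.exp (-(2 * t * ((K + 1) * 2 ^ n)))
          ≤ ((bad n K).card : ℝ) * (1 - t) ^ ((K + 1) * 2 ^ n) :=
            mul_le_mul_of_nonneg_left h3 (Nat.cast_nonneg _)
        _ ≤ _ := h1
        _ ≤ _ := Real.exp_le_exp.2 h4
    rw [Real.exp_neg, ← div_eq_mul_inv, div_le_iff₀ (Real.exp_pos _), ← Real.exp_add] at h6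
    rwa [add_comm] at h6
  have h6 : ((n.factorial : ℕ) : ℝ) ≤ Real.exp (2 ^ n * Real.log n / n) := by
    have h7 : (n.factorial : ℝ) ≤ (n : ℝ) ^ n := by exact_mod_cast Nat.factorial_le_pow n
    have h8 : (n : ℝ) ^ n = Real.exp (n * Real.log n) := by
      rw [Real.exp_nat_mul, Real.exp_log hn0]
    have h9 : n * Real.log n ≤ 2 ^ n * Real.log n / n := by
      have h10 : n ^ 2 ≤ 2 ^ n := by
        clear * - hn
        induction n, hn using Nat.le_induction with
        | base => norm_num
        | succ m hm ih =>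
          rw [pow_succ 2 m]
          nlinarith
      have h11 : (n : ℝ) ^ 2 ≤ 2 ^ n := by exact_mod_cast h10
      rw [le_div_iff₀ hn0]
      nlinarith
    rw [h8] at h7
    exact h7.trans (Real.exp_le_exp.2 h9)
  calc ((n.factorial : ℕ) : ℝ) * ((bad n K).card : ℝ)
      ≤ Real.exp (2 ^ n * Real.log n / n) *
          Real.exp (2 * t * ((K + 1) * 2 ^ n) + 2 * 2 ^ n / n) :=
        mul_le_mul h6 h5 (Nat.cast_nonneg _) (Real.exp_nonneg _)
    _ = Real.exp (2 ^ n * ((4 * K + 5) * Real.log n + 2) / n) := by
        rw [← Real.exp_add]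
        congr 1
        rw [ht]
        ring

/-- The asymptotic form: the number of exceptional families is `2^{o(C(n, n/2))}`. -/
theorem bad_small (K : ℕ → ℕ)
    (hK : Tendsto (fun n : ℕ => (K n : ℝ) * Real.log n / Real.sqrt n) atTop (nhds 0))
    (ε : ℝ) (hε : 0 < ε) : ∀ᶠ n : ℕ in atTop,
    ((n.factorial : ℕ) : ℝ) * ((bad n (K n)).card : ℝ) ≤
      2 ^ (ε * (n.choose (n / 2) : ℝ)) := by
  have hl2 : 0 < Real.log 2 := Real.log_pos (by norm_num)
  have hlim : Tendsto (fun n : ℕ => Real.log (n : ℝ) / Real.sqrt n) atTop (nhds 0) := by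
    have h1 : Tendsto (fun x : ℝ => Real.log x / x ^ (1 / 2 : ℝ)) atTop (nhds 0) :=
      (isLittleO_log_rpow_atTop (by norm_num)).tendsto_div_nhds_zero
    have h2 := h1.comp tendsto_natCast_atTop_atTop
    refine h2.congr fun n => ?_
    simp only [Function.comp, Real.sqrt_eq_rpow]
  set δ : ℝ := min (ε * Real.log 2 / 2 / 11) (1 / 4) with hδ
  have hδ0 : 0 < δ := lt_min (by positivity) (by norm_num)
  filter_upwards [hlim.eventually (gt_mem_nhds hδ0), hK.eventually (gt_mem_nhds hδ0),
    eventually_ge_atTop 4] with n hn hnK hn4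
  have hn0 : (0 : ℝ) < n := by
    have : 0 < n := by omega
    exact_mod_cast this
  have hn1 : (1 : ℝ) ≤ n := by
    have : 1 ≤ n := by omega
    exact_mod_cast this
  have hs : 0 < Real.sqrt n := Real.sqrt_pos.2 hn0
  have hs1 : 1 ≤ Real.sqrt n := Real.one_le_sqrt.2 hn1
  have hss : Real.sqrt n * Real.sqrt n = n := Real.mul_self_sqrt hn0.le
  rw [div_lt_iff₀ hs] at hn hnK
  have hlog0 : 0 ≤ Real.log n := Real.log_natCast_nonneg n
  have hlog1 : 1 ≤ Real.log n := by
    rw [Real.le_log_iff_exp_le hn0]
    have h4 : (4 : ℝ) ≤ n := by exact_mod_cast hn4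
    have := Real.exp_one_lt_d9
    linarith
  have hlog : 4 * Real.log n ≤ n := by
    have h1 : Real.log n ≤ 1 / 4 * Real.sqrt n :=
      hn.le.trans (mul_le_mul_of_nonneg_right (min_le_right _ _) hs.le)
    have h2 : Real.sqrt n ≤ n := by nlinarith
    linarith
  refine (bad_bound n (K n) hn4 hlog).trans ?_
  rw [Real.rpow_def_of_pos (by norm_num : (0 : ℝ) < 2)]
  refine Real.exp_le_exp.2 ?_
  have h1 := middle_lower n (by omega)
  have h2 : Real.log n ≤ ε * Real.log 2 / 2 / 11 * Real.sqrt n :=
    hn.le.trans (mul_le_mul_of_nonneg_right (min_le_left _ _) hs.le)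
  have h3 : K n * Real.log n ≤ ε * Real.log 2 / 2 / 11 * Real.sqrt n :=
    hnK.le.trans (mul_le_mul_of_nonneg_right (min_le_left _ _) hs.le)
  have h4 : (4 * (K n : ℝ) + 5) * Real.log n + 2 ≤ ε * Real.log 2 / 2 * Real.sqrt n := by
    linarith
  calc 2 ^ n * ((4 * (K n : ℝ) + 5) * Real.log n + 2) / n
      ≤ 2 ^ n * (ε * Real.log 2 / 2 * Real.sqrt n) / n := by
        refine div_le_div_of_nonneg_right (mul_le_mul_of_nonneg_left h4 (by positivity)) hn0.le
    _ = Real.log 2 * (ε * (2 ^ n / (2 * Real.sqrt n))) := by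
        rw [div_eq_iff hn0.ne']
        field_simp
        nlinarith
    _ ≤ Real.log 2 * (ε * (n.choose (n / 2) : ℝ)) := by
        refine mul_le_mul_of_nonneg_left (mul_le_mul_of_nonneg_left h1 hε.le) hl2.le

/-! ### Many families -/

/-- The family of all sets with more than `n/2` elements together with `S`. -/
def upper (n : ℕ) (S : Finset (Finset (Fin n))) : Finset (Finset (Fin n)) :=
  S ∪ univ.filter (fun A => n / 2 < A.card)

theorem upper_mem (n : ℕ) (hn : 3 ≤ n) (S : Finset (Finset (Fin n)))
    (hS : S ⊆ powersetCard (n / 2) univ) : upper n S ∈ families n := by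
  classical
  have hmem : ∀ A, A ∈ upper n S ↔ A ∈ S ∨ n / 2 < A.card := by
    intro A
    simp [upper]
  have hcard : ∀ A ∈ upper n S, n / 2 ≤ A.card := by
    intro A hA
    rcases (hmem A).1 hA with h | h
    · exact (Finset.mem_powersetCard.1 (hS h)).2.ge
    · exact h.le
  refine Finset.mem_filter.2 ⟨Finset.mem_univ _, ?_, ?_, ?_, ?_⟩
  · intro A hA B hB
    by_cases hAB : A = B
    · subst hAB
      rwa [Finset.union_self]
    · refine (hmem _).2 (Or.inr ?_)
      by_contra hcon
      push Not at hcon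
      apply hAB
      have h1 : A = A ∪ B := Finset.eq_of_subset_of_card_le Finset.subset_union_left
        (hcon.trans (hcard A hA))
      have h2 : B = A ∪ B := Finset.eq_of_subset_of_card_le Finset.subset_union_right
        (hcon.trans (hcard B hB))
      exact h1.trans h2.symm
  · intro x y hxy
    refine ⟨univ.erase y, (hmem _).2 (Or.inr ?_), ?_⟩
    · rw [Finset.card_erase_of_mem (Finset.mem_univ _), Finset.card_univ, Fintype.card_fin]
      omega
    · simp [hxy]
  · have h1 : (univ : Finset (Fin n)) ∈ upper n S := by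
      refine (hmem _).2 (Or.inr ?_)
      rw [Finset.card_univ, Fintype.card_fin]
      omega
    exact le_antisymm (Finset.subset_univ _) (Finset.le_sup (f := id) h1)
  · intro h
    have h1 : (∅ : Finset (Fin n)) ∈ upper n S := by
      rw [h]
      exact Finset.mem_univ _
    have h2 := hcard _ h1
    rw [Finset.card_empty] at h2
    omega

theorem families_card (n : ℕ) (hn : 3 ≤ n) : 2 ^ (n.choose (n / 2)) ≤ (families n).card := by
  have h1 : ((powersetCard (n / 2) (univ : Finset (Fin n))).powerset).card =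
      2 ^ (n.choose (n / 2)) := by
    rw [Finset.card_powerset, Finset.card_powersetCard, Finset.card_univ, Fintype.card_fin]
  rw [← h1]
  refine Finset.card_le_card_of_injOn (upper n) ?_ ?_
  · intro S hS
    exact Finset.mem_coe.2 (upper_mem n hn S (Finset.mem_powerset.1 (Finset.mem_coe.1 hS)))
  · intro S hS T hT h
    have key : ∀ R ∈ (powersetCard (n / 2) (univ : Finset (Fin n))).powerset,
        (upper n R).filter (fun A => A.card = n / 2) = R := by
      intro R hR
      ext A
      simp only [upper, Finset.mem_filter, Finset.mem_union, Finset.mem_univ, true_and]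
      constructor
      · rintro ⟨h1 | h1, h2⟩
        · exact h1
        · omega
      · intro hA
        exact ⟨Or.inl hA, (Finset.mem_powersetCard.1 (Finset.mem_powerset.1 hR hA)).2⟩
    rw [← key S (Finset.mem_coe.1 hS), ← key T (Finset.mem_coe.1 hT), h]

open scoped Classical in
theorem ratio_bound (n K : ℕ) (hn : 3 ≤ n)
    (hb : ((n.factorial : ℕ) : ℝ) * ((bad n K).card : ℝ) ≤
      2 ^ ((1 / 2 : ℝ) * (n.choose (n / 2) : ℝ))) :
    1 - (2 : ℝ) ^ (-((1 / 2 : ℝ) * n)) ≤
      (((families n).filter (fun F => Good K F)).card : ℝ) /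
        ((families n).card : ℝ) := by
  classical
  have hN := families_card n hn
  have hN' : (2 : ℝ) ^ ((n.choose (n / 2) : ℕ) : ℝ) ≤ ((families n).card : ℝ) := by
    rw [Real.rpow_natCast]
    exact_mod_cast hN
  have hpos : (0 : ℝ) < ((families n).card : ℝ) :=
    lt_of_lt_of_le (Real.rpow_pos_of_pos (by norm_num) _) hN'
  have h1 := Finset.card_filter_add_card_filter_not (s := families n)
    (fun F => Good K F)
  have h2 : ((families n).filter
      (fun F => ¬ Good K F)).card ≤ (bad n K).card := by
    refine Finset.card_le_card ?_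
    intro F hF
    obtain ⟨hF1, hF2⟩ := Finset.mem_filter.1 hF
    exact Finset.mem_filter.2 ⟨Finset.mem_univ _, (Finset.mem_filter.1 hF1).2.1, hF2⟩
  have h3 : ((families n).card : ℝ) ≤
      (((families n).filter (fun F => Good K F)).card : ℝ) +
        ((bad n K).card : ℝ) := by
    rw [← h1]
    push_cast
    have : (((families n).filter
      (fun F => ¬ Good K F)).card : ℝ) ≤
        ((bad n K).card : ℝ) := by exact_mod_cast h2
    linarith
  have h4 : ((bad n K).card : ℝ) ≤ 2 ^ ((1 / 2 : ℝ) * (n.choose (n / 2) : ℝ)) := by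
    refine le_trans ?_ hb
    have h5 : (1 : ℝ) ≤ ((n.factorial : ℕ) : ℝ) := by exact_mod_cast n.factorial_pos
    have h6 : (0 : ℝ) ≤ ((bad n K).card : ℝ) := Nat.cast_nonneg _
    nlinarith
  have h5 : (n : ℝ) ≤ (n.choose (n / 2) : ℝ) := by
    have := Nat.choose_le_middle 1 n
    rw [Nat.choose_one_right] at this
    exact_mod_cast this
  have h6 : ((bad n K).card : ℝ) ≤ 2 ^ (-((1 / 2 : ℝ) * n)) * ((families n).card : ℝ) := by
    calc ((bad n K).card : ℝ) ≤ 2 ^ ((1 / 2 : ℝ) * (n.choose (n / 2) : ℝ)) := h4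
      _ = 2 ^ (-((1 / 2 : ℝ) * (n.choose (n / 2) : ℝ))) *
          2 ^ ((n.choose (n / 2) : ℕ) : ℝ) := by
        rw [← Real.rpow_add (by norm_num : (0 : ℝ) < 2)]
        congr 1
        ring
      _ ≤ 2 ^ (-((1 / 2 : ℝ) * n)) * ((families n).card : ℝ) := by
        refine mul_le_mul ?_ hN' (Real.rpow_nonneg (by norm_num) _)
          (Real.rpow_nonneg (by norm_num) _)
        refine Real.rpow_le_rpow_of_exponent_le (by norm_num) ?_
        linarith
  rw [le_div_iff₀ hpos]
  nlinarith

open scoped Classical in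
theorem ratio_tendsto (K : ℕ → ℕ)
    (hK : Tendsto (fun n : ℕ => (K n : ℝ) * Real.log n / Real.sqrt n) atTop (nhds 0)) :
    Tendsto (fun n : ℕ =>
    (((families n).filter (fun F => Good (K n) F)).card : ℝ) /
      ((families n).card : ℝ)) atTop (nhds 1) := by
  have hlow : Tendsto (fun n : ℕ => 1 - (2 : ℝ) ^ (-((1 / 2 : ℝ) * n))) atTop (nhds 1) := by
    have h1 : Tendsto (fun n : ℕ => ((2 : ℝ) ^ (-(1 / 2 : ℝ))) ^ n) atTop (nhds 0) := by
      refine tendsto_pow_atTop_nhds_zero_of_lt_one (Real.rpow_nonneg (by norm_num) _) ?_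
      exact Real.rpow_lt_one_of_one_lt_of_neg (by norm_num) (by norm_num)
    have h2 : (fun n : ℕ => 1 - (2 : ℝ) ^ (-((1 / 2 : ℝ) * n))) =
        fun n : ℕ => 1 - ((2 : ℝ) ^ (-(1 / 2 : ℝ))) ^ n := by
      ext n
      rw [← Real.rpow_natCast, ← Real.rpow_mul (by norm_num)]
      congr 2
      ring
    rw [h2]
    simpa using h1.const_sub 1
  refine tendsto_of_tendsto_of_tendsto_of_le_of_le' hlow tendsto_const_nhds ?_ ?_
  · filter_upwards [bad_small K hK (1 / 2) (by norm_num), eventually_ge_atTop 3] with n hn hn3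
    exact ratio_bound n (K n) hn3 hn
  · filter_upwards with n
    refine div_le_one_of_le₀ ?_ (Nat.cast_nonneg _)
    exact_mod_cast Finset.card_le_card (Finset.filter_subset _ _)

/-- **Poonen's inequality holds for almost all union-closed families.** -/
theorem result :
    -- if `K n = o(√n / log n)` then the number of union-closed families on `n` elements which
    -- do not have average size more than `(n + K)/2` and an element of frequency more than
    -- `(1/2 + K/(2n)) |F|`, even multiplied by `n!`, is at most `2^{o(C(n, n/2))}`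
    (∀ K : ℕ → ℕ,
      Tendsto (fun n : ℕ => (K n : ℝ) * Real.log n / Real.sqrt n) atTop (nhds 0) →
      ∀ ε : ℝ, 0 < ε → ∀ᶠ n : ℕ in atTop,
        (n.factorial : ℝ) * ((bad n (K n)).card : ℝ) ≤ 2 ^ (ε * (n.choose (n / 2) : ℝ))) ∧
    -- while there are at least `2^{C(n, n/2)}` separating union-closed families with union
    -- `{0, ..., n-1}` which are not the power set
    (∀ n : ℕ, 3 ≤ n → 2 ^ (n.choose (n / 2)) ≤ (families n).card) ∧
    -- so almost all of them have these two properties
    (∀ K : ℕ → ℕ,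
      Tendsto (fun n : ℕ => (K n : ℝ) * Real.log n / Real.sqrt n) atTop (nhds 0) →
      Tendsto (fun n : ℕ => ((goodFamilies n (K n)).card : ℝ) / ((families n).card : ℝ))
        atTop (nhds 1)) :=
  ⟨bad_small, families_card, ratio_tendsto⟩

end Pool.Agent.Results.MP_d55cb9_co.AlmostAll
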