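import Pool.Agent.UCAlmost.Core

/-!
# Poonen's strict inequality for union-closed families with many irreducible members

Double counting of the pairs (member, element), with the bound `2^(n-1)` of Karpas for the
number of sets outside the family which cover a member.
-/

namespace Pool.Agent.Results.MP_d55cb9_co.ManyIrreducibles

open Finset Filter Pool.Agent.UCAlmost

/-- Union-closed families with at least `(1 + δ) 2^n / n` irreducible members satisfy the
strict inequality when `n` is large. -/
theorem many_irreducibles (δ : ℝ) (hδ : 0 < δ) : ∀ᶠ n : ℕ in atTop,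
    ∀ F : Finset (Finset (Fin n)), UnionClosed F →
      (1 + δ) * 2 ^ n / n ≤ ((irreducibles F).card : ℝ) →
        n * F.card < 2 * ∑ A ∈ F, A.card ∧ ∃ x, F.card < 2 * freq F x := by
  set η : ℝ := δ / (4 * (1 + δ)) with hη
  have h1δ : 0 < 2 + δ := by linarith
  have hη0 : 0 < η := by positivity
  have hη1 : η < 1 / 4 := by
    rw [hη, div_lt_iff₀ (by positivity)]
    linarith
  have hprod : (1 / 2 - η) * (1 + δ) = 1 / 2 + δ / 4 := by
    rw [hη]
    field_simp
    ring
  have hr : Real.exp (-(η ^ 2 / 2)) < 1 := by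
    rw [Real.exp_lt_one_iff]
    have : 0 < η ^ 2 / 2 := by positivity
    linarith
  have hlim1 : Tendsto (fun n : ℕ => (n : ℝ) * Real.exp (-(η ^ 2 / 2)) ^ n) atTop (nhds 0) :=
    tendsto_self_mul_const_pow_of_lt_one (Real.exp_nonneg _) hr
  have hlim2 : Tendsto (fun n : ℕ => (1 + δ) / (n : ℝ)) atTop (nhds 0) :=
    tendsto_const_div_atTop_nhds_zero_nat _
  have hδ8 : 0 < δ / 16 := by positivity
  filter_upwards [hlim1.eventually (gt_mem_nhds hδ8), hlim2.eventually (gt_mem_nhds hδ8),
    eventually_ge_atTop 1] with n hn1 hn2 hn3 F hF hcard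
  have hgoal : 2 ^ Fintype.card (Fin n) < 2 * ∑ C ∈ core F, (C.card - 1) → _ :=
    criterion F hF
  rw [Fintype.card_fin] at hgoal
  refine hgoal ?_
  have hn0 : (0 : ℝ) < n := by exact_mod_cast hn3
  set k : ℕ := ⌊(1 / 2 - η) * n⌋₊ with hk
  have hk1 : (k : ℝ) ≤ (1 / 2 - η) * n :=
    Nat.floor_le (mul_nonneg (by linarith) hn0.le)
  have hk2 : (1 / 2 - η) * n - 1 ≤ k := by
    have := Nat.lt_floor_add_one ((1 / 2 - η) * n)
    linarith
  have hsmall := small_sets n k η hη0 (by linarith) hk1
  set S := (univ : Finset (Finset (Fin n))).filter (fun C => C.card ≤ k) with hS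
  have hsum : k * ((irreducibles F).card) ≤ ∑ C ∈ core F, (C.card - 1) + k * S.card := by
    have h1 : irreducibles F ⊆ (core F).filter (fun C => k < C.card) ∪ S := by
      intro C hC
      by_cases h : C.card ≤ k
      · exact Finset.mem_union_right _ (Finset.mem_filter.2 ⟨Finset.mem_univ _, h⟩)
      · exact Finset.mem_union_left _ (Finset.mem_filter.2
          ⟨irreducibles_subset_core F hC, by omega⟩)
    have h2 : (irreducibles F).card ≤ ((core F).filter (fun C => k < C.card)).card + S.card :=
      (Finset.card_le_card h1).trans (Finset.card_union_le _ _)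
    have h3 : ((core F).filter (fun C => k < C.card)).card * k ≤
        ∑ C ∈ core F, (C.card - 1) := by
      calc ((core F).filter (fun C => k < C.card)).card * k
          = ∑ _C ∈ (core F).filter (fun C => k < C.card), k := by
            rw [Finset.sum_const, smul_eq_mul]
        _ ≤ ∑ C ∈ (core F).filter (fun C => k < C.card), (C.card - 1) := by
            refine Finset.sum_le_sum fun C hC => ?_
            have := (Finset.mem_filter.1 hC).2
            omega
        _ ≤ _ := Finset.sum_le_sum_of_subset (Finset.filter_subset _ _)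
    nlinarith
  have hsum' : (k : ℝ) * ((irreducibles F).card : ℝ) ≤
      ((∑ C ∈ core F, (C.card - 1) : ℕ) : ℝ) + k * (S.card : ℝ) := by exact_mod_cast hsum
  have hkn : (k : ℝ) ≤ n := by nlinarith
  have h1 : (k : ℝ) * (S.card : ℝ) ≤ 2 ^ n * (δ / 16) := by
    calc (k : ℝ) * (S.card : ℝ) ≤ n * (2 ^ n * Real.exp (-(η ^ 2 / 2)) ^ n) :=
          mul_le_mul hkn hsmall (Nat.cast_nonneg _) hn0.le
      _ = 2 ^ n * (n * Real.exp (-(η ^ 2 / 2)) ^ n) := by ring
      _ ≤ 2 ^ n * (δ / 16) := mul_le_mul_of_nonneg_left hn1.le (by positivity)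
  have h2 : (2 : ℝ) ^ n * (1 / 2 + δ / 4) - 2 ^ n * ((1 + δ) / n) ≤
      (k : ℝ) * ((irreducibles F).card : ℝ) := by
    have h3 : (0 : ℝ) ≤ (1 + δ) * 2 ^ n / n := by positivity
    calc (2 : ℝ) ^ n * (1 / 2 + δ / 4) - 2 ^ n * ((1 + δ) / n)
        = ((1 / 2 - η) * n - 1) * ((1 + δ) * 2 ^ n / n) := by
          rw [← hprod]
          field_simp
      _ ≤ k * ((1 + δ) * 2 ^ n / n) := mul_le_mul_of_nonneg_right hk2 h3
      _ ≤ k * ((irreducibles F).card : ℝ) :=
          mul_le_mul_of_nonneg_left hcard (Nat.cast_nonneg _)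
  have h3 : (2 : ℝ) ^ n * ((1 + δ) / n) ≤ 2 ^ n * (δ / 16) :=
    mul_le_mul_of_nonneg_left hn2.le (by positivity)
  have h4 : (2 : ℝ) ^ n < 2 * ((∑ C ∈ core F, (C.card - 1) : ℕ) : ℝ) := by
    have h5 : (0 : ℝ) < 2 ^ n * δ := by positivity
    nlinarith
  exact_mod_cast h4

/-- **Poonen's inequality for families with many irreducible members.** -/
theorem result :
    -- for every union-closed family of subsets of an `n`-element set:
    -- `2 n |F| + 2 Σ_{C ∈ core F} (|C| - 1) ≤ 4 Σ_{A ∈ F} |A| + 2^n`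
    (∀ (α : Type) [Fintype α] [DecidableEq α] (F : Finset (Finset α)), UnionClosed F →
      2 * Fintype.card α * F.card + 2 * ∑ C ∈ core F, (C.card - 1) ≤
        4 * ∑ A ∈ F, A.card + 2 ^ Fintype.card α) ∧
    -- so for large `n` every union-closed family with at least `(1 + δ) 2^n / n` irreducible
    -- members has average member size more than `n/2`, and an element which lies in more than
    -- half of the members
    (∀ δ : ℝ, 0 < δ → ∀ᶠ n : ℕ in atTop, ∀ F : Finset (Finset (Fin n)), UnionClosed F →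
      (1 + δ) * 2 ^ n / n ≤ ((irreducibles F).card : ℝ) →
        n * F.card < 2 * ∑ A ∈ F, A.card ∧ ∃ x, F.card < 2 * freq F x) :=
  ⟨fun _ _ _ F hF => main_inequality F hF, many_irreducibles⟩

end Pool.Agent.Results.MP_d55cb9_co.ManyIrreducibles
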