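import Pool.Agent.SmoothUC.Reg1
import Pool.Agent.SmoothUC.Asym

/-!
Poonen's strengthening of the union-closed sets conjecture for families generated by random sets
with arbitrary inclusion probabilities bounded away from 0 and 1.
-/

namespace Pool.Agent.Results.MP_d55cb9_co.SmoothPoonen

open Finset SmoothUC

/-- For all `ε, η > 0` there is `N` such that for all `n ≥ 2`, all `m` with `N ≤ n + m` and all
probabilities `p i x ∈ [ε, 1 - ε]`: if `n` subsets of an `m`-element set are chosen at random, where
the `i`-th contains `x` with probability `p i x`, all these events being independent, then the family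
of all unions is good with probability at least `1 - η`. -/
theorem result (ε η : ℝ) (hε : 0 < ε) (hη : 0 < η) :
    ∃ N : ℕ, ∀ n m : ℕ, 2 ≤ n → N ≤ n + m → ∀ p : Fin n → Fin m → ℝ,
      (∀ i x, ε ≤ p i x ∧ p i x ≤ 1 - ε) →
      1 - η ≤ Pr p (fun ω => Good (family ω)) := by
  have hcompl : ∀ (n m : ℕ) (p : Fin n → Fin m → ℝ),
      Pr p (fun ω => ¬ Good (family ω)) ≤ η → 1 - η ≤ Pr p (fun ω => Good (family ω)) := by
    intro n m p h
    have := Pr_compl p (fun ω => Good (family ω))
    linarith
  by_cases hε2 : ε ≤ 1 / 2
  · obtain ⟨c, hc, hsmall⟩ := reg_small ε hε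
    obtain ⟨m₁, hm₁⟩ := hsmall η hη
    obtain ⟨m₂, hm₂⟩ := reg_large ε hε hε2 c hc η hη
    obtain ⟨N, hN⟩ := reg_bounded ε η hε hη (m₁ + m₂)
    refine ⟨N + (m₁ + m₂), fun n m hn hnm p hp => hcompl n m p ?_⟩
    by_cases hm : m ≤ m₁ + m₂
    · exact hN n m hm (by omega) p hp
    · rcases le_total (n : ℝ) (Real.exp (c * m)) with h | h
      · exact hm₁ m (by omega) n hn h p hp
      · exact hm₂ m (by omega) n h p hp
  · -- `ε > 1/2`: there are no probabilities unless `m = 0`
    refine ⟨0, fun n m hn _ p hp => ?_⟩
    rcases Nat.eq_zero_or_pos m with hm | hm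
    · subst hm
      have hgood : ∀ ω : Fin n → Fin 0 → Bool, True → Good (family ω) := by
        intro ω _
        left
        have h1 : family ω = {∅} := by
          ext A
          have hA : A = ∅ := Finset.eq_empty_of_isEmpty A
          subst hA
          simp only [Finset.mem_singleton, iff_true]
          unfold family
          rw [Finset.mem_image]
          exact ⟨∅, Finset.mem_univ _, by simp⟩
        rw [h1]
        simp
      have h2 := Pr_mono hε.le hp (E := fun _ => True) (E' := fun ω => Good (family ω)) hgood
      rw [Pr_true] at h2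
      linarith
    · exfalso
      have := hp ⟨0, by omega⟩ ⟨0, hm⟩
      linarith

end Pool.Agent.Results.MP_d55cb9_co.SmoothPoonen
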